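import Pool.Agent.P8H14.GQ.Stm

/-!
# Project GQ: package SNG (the singular series of the pair `(0, s)`).
-/

set_option autoImplicit false

namespace Pool.Agent.P8H52.GQ

open Finset Filter Topology
open Pool.Agent.P8H14.GQ
open Pool.Agent.P8H14.SS (SG PX bet mem_PX tendsto_SG)
open Pool.Agent.H560R3.GB (sing C₂)

/-- The partial products of the twin prime constant. -/
noncomputable def cp (z : ℕ) : ℝ := ∏ p ∈ (Icc 3 z).filter Nat.Prime, (1 - 1 / ((p : ℝ) - 1) ^ 2)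

theorem fac_bounds {p : ℕ} (hp : 3 ≤ p) :
    0 < 1 - 1 / ((p : ℝ) - 1) ^ 2 ∧ 1 - 1 / ((p : ℝ) - 1) ^ 2 ≤ 1 := by
  have h3 : (3 : ℝ) ≤ p := by exact_mod_cast hp
  have h4 : (1 : ℝ) < ((p : ℝ) - 1) ^ 2 := by nlinarith
  have h5 : 1 / ((p : ℝ) - 1) ^ 2 < 1 := by
    rw [div_lt_one (by linarith)]; exact h4
  have h6 : 0 ≤ 1 / ((p : ℝ) - 1) ^ 2 := by positivity
  exact ⟨by linarith, by linarith⟩

theorem cp_pos (z : ℕ) : 0 < cp z := prod_pos fun p hp => by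
  rw [mem_filter, mem_Icc] at hp
  exact (fac_bounds hp.1.1).1

theorem cp_anti : Antitone cp := by
  intro a b hab
  unfold cp
  have hsub : (Icc 3 a).filter Nat.Prime ⊆ (Icc 3 b).filter Nat.Prime := by
    intro p hp
    rw [mem_filter, mem_Icc] at hp ⊢
    exact ⟨⟨hp.1.1, hp.1.2.trans hab⟩, hp.2⟩
  rw [← prod_sdiff hsub]
  have h1 : ∏ p ∈ (Icc 3 b).filter Nat.Prime \ (Icc 3 a).filter Nat.Prime,
      (1 - 1 / ((p : ℝ) - 1) ^ 2) ≤ 1 := by
    refine prod_le_one (fun p hp => ?_) (fun p hp => ?_)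
    · rw [Finset.mem_sdiff, mem_filter, mem_Icc] at hp
      exact (fac_bounds hp.1.1.1).1.le
    · rw [Finset.mem_sdiff, mem_filter, mem_Icc] at hp
      exact (fac_bounds hp.1.1.1).2
  have h2 : 0 ≤ ∏ p ∈ (Icc 3 a).filter Nat.Prime, (1 - 1 / ((p : ℝ) - 1) ^ 2) := (cp_pos a).le
  nlinarith

theorem cp_tendsto : Tendsto cp atTop (𝓝 C₂) := by
  have h : Tendsto cp atTop (𝓝 (⨅ z, cp z)) :=
    tendsto_atTop_ciInf cp_anti ⟨0, by rintro _ ⟨z, rfl⟩; exact (cp_pos z).le⟩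
  exact h

theorem bet_pair {s p : ℕ} (hp : p.Prime) : bet ![0, s] p =
    ((1 - 1 / (p : ℝ)) ^ 2)⁻¹ * (1 - (if p ∣ s then 1 else 2) / p) := by
  unfold bet
  have himg : (univ.image (fun i : Fin 2 => (![0, s] : Fin 2 → ℕ) i % p)) = {0, s % p} := by
    ext x
    simp only [mem_image, mem_univ, true_and, mem_insert, mem_singleton]
    constructor
    · rintro ⟨i, rfl⟩
      fin_cases i <;> simp
    · rintro (rfl | rfl)
      · exact ⟨0, by simp⟩
      · exact ⟨1, by simp⟩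
  rw [himg]
  congr 2
  split_ifs with h
  · rw [Nat.mod_eq_zero_of_dvd h]; simp
  · rw [card_pair]
    · norm_num
    · intro h0
      exact h (Nat.dvd_of_mod_eq_zero h0.symm)

theorem bet_two {s : ℕ} (hs : Even s) : bet ![0, s] 2 = 2 := by
  rw [bet_pair Nat.prime_two, if_pos hs.two_dvd]
  norm_num

theorem bet_odd {s p : ℕ} (hp : p.Prime) (h3 : 3 ≤ p) : bet ![0, s] p =
    (1 - 1 / ((p : ℝ) - 1) ^ 2) * (if p ∣ s then ((p : ℝ) - 1) / ((p : ℝ) - 2) else 1) := by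
  rw [bet_pair hp]
  have h3' : (3 : ℝ) ≤ p := by exact_mod_cast h3
  have e0 : (p : ℝ) ≠ 0 := by linarith
  have e1 : (p : ℝ) - 1 ≠ 0 := by intro h; linarith
  have e2 : (p : ℝ) - 2 ≠ 0 := by intro h; linarith
  have e3 : 1 - 1 / (p : ℝ) = ((p : ℝ) - 1) / p := by field_simp
  rw [e3]
  split_ifs with h
  · field_simp
    ring
  · field_simp
    ring

theorem prod_eq {s : ℕ} (hs1 : 1 ≤ s) (hs : Even s) {X : ℕ} (hX : s ≤ X) :
    ∏ p ∈ PX X, bet ![0, s] p =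
      2 * cp X * ∏ p ∈ s.primeFactors.filter (fun p => 2 < p), ((p : ℝ) - 1) / ((p : ℝ) - 2) := by
  have hs2 : 2 ≤ s := by
    obtain ⟨t, ht⟩ := hs
    omega
  have hPX : PX X = insert 2 ((Icc 3 X).filter Nat.Prime) := by
    ext p
    rw [mem_PX, mem_insert, mem_filter, mem_Icc]
    constructor
    · rintro ⟨h1, h2⟩
      rcases Nat.lt_or_ge 2 p with h | h
      · exact Or.inr ⟨⟨h, h1⟩, h2⟩
      · exact Or.inl (le_antisymm h h2.two_le)
    · rintro (rfl | ⟨⟨_, h1⟩, h2⟩)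
      · exact ⟨by omega, Nat.prime_two⟩
      · exact ⟨h1, h2⟩
  rw [hPX, prod_insert (by simp), bet_two hs]
  have h1 : ∏ p ∈ (Icc 3 X).filter Nat.Prime, bet ![0, s] p =
      ∏ p ∈ (Icc 3 X).filter Nat.Prime, ((1 - 1 / ((p : ℝ) - 1) ^ 2) *
        (if p ∣ s then ((p : ℝ) - 1) / ((p : ℝ) - 2) else 1)) := by
    refine prod_congr rfl fun p hp => ?_
    rw [mem_filter, mem_Icc] at hp
    exact bet_odd hp.2 hp.1.1
  rw [h1, prod_mul_distrib, ← prod_filter]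
  have h2 : ((Icc 3 X).filter Nat.Prime).filter (fun p => p ∣ s) =
      s.primeFactors.filter (fun p => 2 < p) := by
    ext p
    rw [mem_filter, mem_filter, mem_filter, mem_Icc, Nat.mem_primeFactors]
    constructor
    · rintro ⟨⟨⟨a, b⟩, c⟩, d⟩
      exact ⟨⟨c, d, by omega⟩, a⟩
    · rintro ⟨⟨c, d, _⟩, a⟩
      exact ⟨⟨⟨a, (Nat.le_of_dvd hs1 d).trans hX⟩, c⟩, d⟩
  rw [h2]
  unfold cp
  ring

theorem sng : S_SNG := by
  intro s hs1 hs
  have hinj : Function.Injective (![0, s] : Fin 2 → ℕ) := by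
    intro i j hij
    fin_cases i <;> fin_cases j <;> simp at hij ⊢ <;> omega
  have h1 := tendsto_SG hinj
  have h2 : Tendsto (fun X => ∏ p ∈ PX X, bet ![0, s] p) atTop (𝓝 (sing s)) := by
    have h3 := (cp_tendsto.const_mul 2).mul_const
      (∏ p ∈ s.primeFactors.filter (fun p => 2 < p), ((p : ℝ) - 1) / ((p : ℝ) - 2))
    refine Tendsto.congr' ?_ h3
    filter_upwards [eventually_ge_atTop s] with X hX
    exact (prod_eq hs1 hs hX).symm
  exact tendsto_nhds_unique h1 h2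

end Pool.Agent.P8H52.GQ
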